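import Pool.Agent.H11.LD.All

/-!
# Least Laplacian index of connected graphs with domination number `g`

For `g ≥ 2`, `m ≥ 3` the least Laplacian index of the connected graphs with `g m` vertices and
domination number `g` is the largest root `μ` of `x (x - 3) (x - m) = 4 cos² (π / 2g)`, and the
graphs which attain it are exactly those with the structure `Minimizer`. For `n ≥ 3 g` with
`g (m - 1) < n ≤ g m` the minimum lies between `m + 1 / (m (m - 1))` and `μ`.
-/

set_option autoImplicit false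

namespace Pool.Agent.Results.MP_c4ad93_co.DivisibleOrders

open Pool.Agent.H9.Lap (HasDom IsLapIndex)
open Pool.Agent.H11.LD (IsRoot Minimizer)

theorem result :
    (∀ g m : ℕ, 2 ≤ g → 3 ≤ m → ∃ μ : ℝ, IsRoot g m μ ∧
      IsLeast {x : ℝ | ∃ G : SimpleGraph (Fin (g * m)), G.Connected ∧ HasDom G g ∧
        IsLapIndex G x} μ ∧
      ∀ G : SimpleGraph (Fin (g * m)), G.Connected → HasDom G g →
        (IsLapIndex G μ ↔ Minimizer G g m)) ∧
    ∀ g m n : ℕ, 2 ≤ g → 3 ≤ m → g * (m - 1) < n → n ≤ g * m → 3 * g ≤ n → ∃ x μ : ℝ,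
      IsLeast {x : ℝ | ∃ G : SimpleGraph (Fin n), G.Connected ∧ HasDom G g ∧ IsLapIndex G x} x ∧
      IsRoot g m μ ∧ (m : ℝ) + 1 / (m * (m - 1)) ≤ x ∧ x ≤ μ :=
  Pool.Agent.H11.LD.All.r_FIN

end Pool.Agent.Results.MP_c4ad93_co.DivisibleOrders
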