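import Pool.Agent.H9.Lap.All

/-!
# Largest Laplacian index of connected graphs with domination number `g`, order `n ≥ 150 g^2`

For `g ≥ 3` and `n ≥ 150 g^2` the largest value of the Laplacian index over the connected graphs
on `n` vertices with domination number `g` is the larger root of `x^2 - (n - g + 4) x + 2 n`, and
the extremal graphs are exactly the graphs of the class with the structure `Extremal`.
-/

namespace Pool.Agent.Results.MP_c4ad93_co.LargeOrder

open Pool.Agent.H9.Lap

theorem result (n g : ℕ) (hg : 3 ≤ g) (hn : 150 * g ^ 2 ≤ n) :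
    IsGreatest {x : ℝ | ∃ G : SimpleGraph (Fin n), G.Connected ∧ HasDom G g ∧ IsLapIndex G x}
      (muS n g) ∧
    ∀ G : SimpleGraph (Fin n), G.Connected → HasDom G g →
      (IsLapIndex G (muS n g) ↔ Extremal G g) :=
  all_fin n g hg hn

end Pool.Agent.Results.MP_c4ad93_co.LargeOrder
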